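import Pool.Agent.H51.CST.Targets

/-!
# Board MP_11d263_co (cst_modules), row ULT
-/

set_option autoImplicit false

open Polynomial

namespace Pool.Agent.H17.CST

open Pool.Agent.H51.CST

section maps

variable {R S : Type} [CommRing R] [CommRing S]

/-- a polynomial in two variables with the first one fixed -/
noncomputable def atR (P : R[X][X]) (x : R) : R[X] := P.map (evalRingHom x)

theorem atR_map (ψ : R →+* S) (P : R[X][X]) (x : R) :
    atR (P.map (mapRingHom ψ)) (ψ x) = (atR P x).map ψ := by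
  unfold atR
  rw [map_map, map_map]
  congr 1
  refine RingHom.ext fun p => ?_
  simp only [RingHom.comp_apply, coe_evalRingHom, coe_mapRingHom]
  rw [eval_map, eval₂_hom]

theorem eval_atR (ψ : R →+* S) (P : R[X][X]) (x y : R) :
    (atR (P.map (mapRingHom ψ)) (ψ x)).eval (ψ y) = ψ ((atR P x).eval y) := by
  rw [atR_map, eval_map, eval₂_hom]

theorem eval_datR (ψ : R →+* S) (P : R[X][X]) (x y : R) :
    (derivative (atR (P.map (mapRingHom ψ)) (ψ x))).eval (ψ y) =
      ψ ((derivative (atR P x)).eval y) := by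
  rw [atR_map, derivative_map, eval_map, eval₂_hom]

theorem bd_coeff (P : R[X][X]) : ∃ D : ℕ, P.natDegree ≤ D ∧ ∀ j, (P.coeff j).natDegree ≤ D := by
  classical
  refine ⟨max P.natDegree (P.support.sup fun j => (P.coeff j).natDegree), le_max_left _ _, ?_⟩
  intro j
  by_cases hj : j ∈ P.support
  · exact (Finset.le_sup (f := fun j => (P.coeff j).natDegree) hj).trans (le_max_right _ _)
  · rw [notMem_support_iff.1 hj, natDegree_zero]
    exact Nat.zero_le _

theorem natDegree_coeff_map (ψ : R →+* S) (P : R[X][X]) (j : ℕ) :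
    ((P.map (mapRingHom ψ)).coeff j).natDegree ≤ (P.coeff j).natDegree := by
  rw [coeff_map, coe_mapRingHom]
  exact natDegree_map_le

end maps

theorem at0_eq {k : Type} [Field k] (G : k[X][X]) (x : k) : at0 G x = atR G x := rfl

theorem ult_core (hFIN : T_FIN) (F : ℕ → Type) [∀ n, Field (F n)] [∀ n, Finite (F n)]
    (hcard : ∀ n, n ≤ Nat.card (F n)) (K : Type) [Field K] (φ : (∀ n, F n) →+* K)
    (hφ : Function.Surjective φ) (U : Filter ℕ) [U.NeBot]
    (h0 : ∀ x, φ x = 0 ↔ ∀ᶠ n in U, x n = 0) (h1 : ∀ x, φ x ≠ 0 → ∀ᶠ n in U, x n ≠ 0)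
    (hN : ∀ N : ℕ, ∀ᶠ n in U, N ≤ n) : PacL K := by
  classical
  intro G g hG y0 hy1 hy2 hy3
  have hsur : Function.Surjective (mapRingHom φ) := map_surjective φ hφ
  have hl : G ∈ lifts (mapRingHom φ) := by
    obtain ⟨q, hq⟩ := map_surjective (mapRingHom φ) hsur G
    exact (mem_lifts _).2 ⟨q, hq⟩
  obtain ⟨G', hG', -, hGm⟩ := lifts_and_natDegree_eq_and_monic hl hG
  obtain ⟨g', hg'⟩ := map_surjective (mapRingHom φ) hsur g
  obtain ⟨y', hy'⟩ := hφ y0
  subst hy'
  rw [at0_eq] at hy1 hy2 hy3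
  have e0 : (0 : K) = φ 0 := (map_zero φ).symm
  rw [← hG', e0, eval_atR, ← e0] at hy1
  rw [← hG', e0, eval_datR, ← e0] at hy2
  rw [← hg', e0, eval_atR, ← e0] at hy3
  obtain ⟨D1, hD1, hD1'⟩ := bd_coeff G'
  obtain ⟨D2, hD2, hD2'⟩ := bd_coeff g'
  obtain ⟨N, hFN⟩ := hFIN (max D1 D2)
  have ev1 := (h0 _).1 hy1
  have ev2 := h1 _ hy2
  have ev3 := h1 _ hy3
  have key : ∀ᶠ n in U, ∃ x y : F n, x ≠ 0 ∧
      (at0 (G'.map (mapRingHom (Pi.evalRingHom F n))) x).eval y = 0 ∧
      (at0 (g'.map (mapRingHom (Pi.evalRingHom F n))) x).eval y ≠ 0 := by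
    filter_upwards [ev1, ev2, ev3, hN N] with n w1 w2 w3 w4
    refine hFN (F n) (w4.trans (hcard n)) _ _ (hGm.map _) ?_ ?_ ?_ ?_ (y' n) ?_ ?_ ?_
    · exact natDegree_map_le.trans (hD1.trans (le_max_left _ _))
    · intro j
      exact (natDegree_coeff_map _ _ j).trans ((hD1' j).trans (le_max_left _ _))
    · exact natDegree_map_le.trans (hD2.trans (le_max_right _ _))
    · intro j
      exact (natDegree_coeff_map _ _ j).trans ((hD2' j).trans (le_max_right _ _))
    · rw [at0_eq]
      exact (eval_atR (Pi.evalRingHom F n) G' 0 y').trans w1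
    · rw [at0_eq]
      have := eval_datR (Pi.evalRingHom F n) G' 0 y'
      intro hh
      exact w2 (this.symm.trans hh)
    · rw [at0_eq]
      have := eval_atR (Pi.evalRingHom F n) g' 0 y'
      intro hh
      exact w3 (this.symm.trans hh)
  have key2 : ∀ n, ∃ x y : F n, (∃ x y : F n, x ≠ 0 ∧
      (at0 (G'.map (mapRingHom (Pi.evalRingHom F n))) x).eval y = 0 ∧
      (at0 (g'.map (mapRingHom (Pi.evalRingHom F n))) x).eval y ≠ 0) → x ≠ 0 ∧
      (at0 (G'.map (mapRingHom (Pi.evalRingHom F n))) x).eval y = 0 ∧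
      (at0 (g'.map (mapRingHom (Pi.evalRingHom F n))) x).eval y ≠ 0 := by
    intro n
    by_cases hn : ∃ x y : F n, x ≠ 0 ∧
      (at0 (G'.map (mapRingHom (Pi.evalRingHom F n))) x).eval y = 0 ∧
      (at0 (g'.map (mapRingHom (Pi.evalRingHom F n))) x).eval y ≠ 0
    · obtain ⟨x, y, hxy⟩ := hn
      exact ⟨x, y, fun _ => hxy⟩
    · exact ⟨0, 0, fun h => absurd h hn⟩
  choose x y hxy using key2
  have h2 : ∀ z : ∀ n, F n, (∀ᶠ n in U, z n ≠ 0) → φ z ≠ 0 := by
    intro z hz hz0
    have := (hz.and ((h0 z).1 hz0)).exists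
    obtain ⟨n, hn1, hn2⟩ := this
    exact hn1 hn2
  refine ⟨φ x, φ y, h2 _ ?_, ?_, ?_⟩
  · filter_upwards [key] with n hn
    exact (hxy n hn).1
  · rw [at0_eq, ← hG', eval_atR]
    refine (h0 _).2 ?_
    filter_upwards [key] with n hn
    exact (eval_atR (Pi.evalRingHom F n) G' x y).symm.trans (hxy n hn).2.1
  · rw [at0_eq, ← hg', eval_atR]
    refine h2 _ ?_
    filter_upwards [key] with n hn
    intro hh
    exact (hxy n hn).2.2 ((eval_atR (Pi.evalRingHom F n) g' x y).trans hh)

section small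

variable (F : ℕ → Type) [∀ n, Field (F n)] (M : Ideal (∀ n, F n))

/-- every sequence supported in `S` is in `M` -/
def Sm (S : Set ℕ) : Prop := ∀ x : ∀ n, F n, (∀ n, n ∉ S → x n = 0) → x ∈ M

/-- the filter of the complements of the small sets -/
def Us : Filter ℕ where
  sets := {S | Sm F M Sᶜ}
  univ_sets := by
    intro x hx
    have : x = 0 := funext fun n => hx n (by simp)
    rw [this]
    exact M.zero_mem
  sets_of_superset := by
    intro S T hS hST x hx
    exact hS x fun n hn => hx n fun h => hn fun h' => h (hST h')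
  inter_sets := by
    classical
    intro S T hS hT x hx
    have e : x = (fun n => if n ∈ S then 0 else x n) + (fun n => if n ∈ S then x n else 0) := by
      funext n
      by_cases hn : n ∈ S <;> simp [hn]
    rw [e]
    refine M.add_mem (hS _ ?_) (hT _ ?_)
    · intro n hn
      have : n ∈ S := by simpa using hn
      simp [this]
    · intro n hn
      have hT' : n ∈ T := by simpa using hn
      by_cases hn' : n ∈ S
      · have := hx n (by simp [hn', hT'])
        simp [hn', this]
      · simp [hn']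

end small

/-- Row ULT. -/
theorem pf_ULT (hFIN : T_FIN) : T_ULT := by
  intro F _ _ M _ hcard hfin
  let _ : Field ((∀ n, F n) ⧸ M) := Ideal.Quotient.field M
  have hne : (Us F M).NeBot := by
    refine ⟨fun h => ?_⟩
    have h1 : (∅ : Set ℕ) ∈ Us F M := Filter.empty_mem_iff_bot.2 h
    have h2 : (1 : ∀ n, F n) ∈ M := by
      refine h1 1 ?_
      intro n hn
      exact absurd (by simp) hn
    exact (Ideal.IsMaximal.ne_top ‹M.IsMaximal›) ((Ideal.eq_top_iff_one M).2 h2)
  have h0 : ∀ x : ∀ n, F n, Ideal.Quotient.mk M x = 0 ↔ ∀ᶠ n in Us F M, x n = 0 := by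
    intro x
    rw [Ideal.Quotient.eq_zero_iff_mem]
    constructor
    · intro hx y hy
      have e : y = (y * fun n => (x n)⁻¹) * x := by
        funext n
        by_cases hn : x n = 0
        · have : y n = 0 := hy n (by simpa using hn)
          simp [this]
        · simp only [Pi.mul_apply]
          rw [mul_assoc, inv_mul_cancel₀ hn, mul_one]
      rw [e]
      exact M.mul_mem_left _ hx
    · intro hx
      exact hx x fun n hn => by simpa using hn
  have h1 : ∀ x : ∀ n, F n, Ideal.Quotient.mk M x ≠ 0 → ∀ᶠ n in Us F M, x n ≠ 0 := by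
    intro x hx y hy
    have hx' : x ∉ M := fun h => hx (Ideal.Quotient.eq_zero_iff_mem.2 h)
    have hxy : x * y = 0 := by
      funext n
      by_cases hn : x n = 0
      · simp [hn]
      · have : y n = 0 := hy n (by simpa using hn)
        simp [this]
    have hp : M.IsPrime := Ideal.IsMaximal.isPrime ‹M.IsMaximal›
    exact (hp.mem_or_mem (hxy ▸ M.zero_mem)).resolve_left hx'
  refine ult_core hFIN F hcard ((∀ n, F n) ⧸ M) (Ideal.Quotient.mk M) Ideal.Quotient.mk_surjective
    (Us F M) h0 h1 ?_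
  intro N x hx
  refine hfin x ((Set.finite_lt_nat N).subset ?_)
  intro n hn
  by_contra hc
  exact hn (hx n (by simpa using hc))

end Pool.Agent.H17.CST
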