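import Pool.Agent.H51.CST.Targets

/-!
# Board MP_11d263_co (cst_modules), row VDM
-/

set_option autoImplicit false

open Polynomial

namespace Pool.Agent.H17.CST

open Pool.Agent.H51.CST

theorem vdm_step (K : Type) [Field K] (P : K[X][X]) (M : ℕ) (Z : Finset K) (r : K → K[X])
    (hdeg : P.natDegree < Z.card) (h0 : ∀ b ∈ Z, (r b).coeff 0 = b)
    (hdvd : ∀ b ∈ Z, X ^ M ∣ P.eval (r b)) :
    ∀ s, s ≤ M → ∀ j, X ^ s ∣ P.coeff j := by
  intro s
  induction s with
  | zero => intro _ j; rw [pow_zero]; exact one_dvd _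
  | succ s ih =>
    intro hs
    have h1 : C (X ^ s : K[X]) ∣ P := (C_dvd_iff_dvd_coeff _ _).2 (ih (by omega))
    obtain ⟨P', hP'⟩ := h1
    have hX : (X ^ s : K[X]) ≠ 0 := pow_ne_zero _ X_ne_zero
    have hd' : P'.natDegree = P.natDegree := by
      rw [hP', natDegree_C_mul hX]
    have hz : P'.map (evalRingHom (0 : K)) = 0 := by
      refine eq_zero_of_natDegree_lt_card_of_eval_eq_zero' _ Z ?_ ?_
      · intro b hb
        have h2 : X ^ (s + 1) ∣ P.eval (r b) := (pow_dvd_pow _ hs).trans (hdvd b hb)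
        rw [hP', eval_mul, eval_C, pow_succ] at h2
        have h3 : (X : K[X]) ∣ P'.eval (r b) := (mul_dvd_mul_iff_left hX).1 h2
        have h4 : (evalRingHom (0 : K)) (P'.eval (r b)) = 0 := by
          rw [coe_evalRingHom, ← coeff_zero_eq_eval_zero]
          exact X_dvd_iff.1 h3
        rw [← eval₂_hom, ← eval_map] at h4
        have h5 : (evalRingHom (0 : K)) (r b) = b := by
          rw [coe_evalRingHom, ← coeff_zero_eq_eval_zero]
          exact h0 b hb
        rw [h5] at h4
        exact h4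
      · refine lt_of_le_of_lt natDegree_map_le ?_
        rw [hd']
        exact hdeg
    intro j
    rw [hP', coeff_C_mul, pow_succ]
    refine mul_dvd_mul_left _ ?_
    rw [X_dvd_iff, coeff_zero_eq_eval_zero]
    have h6 := congrArg (fun p => p.coeff j) hz
    simpa using h6

/-- Row VDM. -/
theorem pf_VDM : T_VDM := fun K _ P M Z r hdeg h0 hdvd =>
  vdm_step K P M Z r hdeg h0 hdvd M le_rfl

end Pool.Agent.H17.CST
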